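import Pool.Agent.SOR.Stmts1

/-!
# SOR, row PRG: the pairing with a cocycle which is `0` at `A`
-/

open scoped BigOperators

noncomputable section

namespace Pool.Agent.SOR.H47

variable {Y : Type}

theorem cx_one {i : Fr →* Equiv.Perm Y} {u : Fr → Y → ℚ} (hu : Cx i u) (y : Y) : u 1 y = 0 := by
  have h := hu 1 1 y
  rw [mul_one, map_one] at h
  simpa using h

theorem cx_inv {i : Fr →* Equiv.Perm Y} {u : Fr → Y → ℚ} (hu : Cx i u) (g : Fr) (y : Y) :
    u g⁻¹ (i g y) = - u g y := by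
  have h := hu g⁻¹ g y
  rw [inv_mul_cancel, cx_one hu] at h
  linarith

theorem perm_ai (π : Equiv.Perm Y) (y : Y) : π (π⁻¹ y) = y := by
  rw [← Equiv.Perm.mul_apply, mul_inv_cancel]
  rfl

/-- **PRG** from THX. -/
theorem prg (hT : ThxStmt) : PrgStmt := by
  intro Y _ i u v hu hv hA
  obtain ⟨hex, -, -⟩ := hT Y i u v hu hv
  have hI : Iv i u v = ∑ y, hex.choose lC y := by
    unfold Iv
    rw [dif_pos hex]
  obtain ⟨hth, h1, h2⟩ := hex.choose_spec
  rw [hI]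
  generalize hex.choose = θ at hth h1 h2 ⊢
  have t1 : ∀ y, θ 1 y = 0 := by
    intro y
    have h := hth 1 1 y
    rw [mul_one, map_one, cx_one hu, zero_mul] at h
    simpa using h
  have vAi : ∀ y, v lA⁻¹ y = 0 := by
    intro y
    have h := cx_inv hv lA ((i lA)⁻¹ y)
    rw [hA, perm_ai] at h
    simpa using h
  have tAi : ∀ y, θ lA⁻¹ y = 0 := by
    intro y
    have h := hth lA⁻¹ lA ((i lA)⁻¹ y)
    rw [inv_mul_cancel, t1, h1, hA, perm_ai] at h
    linarith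
  have tBi : ∀ y, θ lB⁻¹ (i lB y) = u lB y * v lB y := by
    intro y
    have h := hth lB⁻¹ lB y
    rw [inv_mul_cancel, t1, h2, cx_inv hu] at h
    linarith
  have tBA : ∀ y, θ (lB * lA) y = 0 := by
    intro y
    rw [hth, h1, h2, hA]
    ring
  have vBA : ∀ y, v (lB * lA) y = v lB (i lA y) := by
    intro y
    rw [hv, hA, add_zero]
  have tABA : ∀ y, θ (lA⁻¹ * (lB * lA)) y = u lA⁻¹ (i (lB * lA) y) * v lB (i lA y) := by
    intro y
    rw [hth, tAi, tBA, vBA]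
    ring
  have vABA : ∀ y, v (lA⁻¹ * (lB * lA)) y = v lB (i lA y) := by
    intro y
    rw [hv, vAi, vBA, zero_add]
  have hCe : lC = lB⁻¹ * (lA⁻¹ * (lB * lA)) := by
    simp only [lC, mul_assoc]
  have hz : ∀ y, i (lA⁻¹ * (lB * lA)) y = i lB (i lC y) := by
    intro y
    rw [← Equiv.Perm.mul_apply, ← map_mul, hCe, mul_inv_cancel_left]
  have tC : ∀ y, θ lC y = u lB (i lC y) * v lB (i lC y) +
      (u lA⁻¹ (i (lB * lA) y) - u lB (i lC y)) * v lB (i lA y) := by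
    intro y
    have h := hth lB⁻¹ (lA⁻¹ * (lB * lA)) y
    rw [← hCe, hz, tBi, tABA, vABA, cx_inv hu] at h
    rw [h]
    ring
  have e1 : ∑ y, u lB (i lC y) * v lB (i lC y) = ∑ y, u lB y * v lB y :=
    Equiv.sum_comp (i lC) (fun y => u lB y * v lB y)
  have e2 : ∑ y, (u lA⁻¹ (i (lB * lA) y) - u lB (i lC y)) * v lB (i lA y) =
      ∑ y, (u lA⁻¹ (i lB y) - u lB (i (lB⁻¹ * lA⁻¹ * lB) y)) * v lB y := by
    rw [← Equiv.sum_comp (i lA)
      (fun y => (u lA⁻¹ (i lB y) - u lB (i (lB⁻¹ * lA⁻¹ * lB) y)) * v lB y)]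
    refine Finset.sum_congr rfl fun y _ => ?_
    rw [← Equiv.Perm.mul_apply (i lB), ← Equiv.Perm.mul_apply (i (lB⁻¹ * lA⁻¹ * lB)), ← map_mul,
      ← map_mul]
    rfl
  have hA'i : lA'⁻¹ = lB⁻¹ * (lA⁻¹ * lB) := by
    simp only [lA', mul_inv_rev, inv_inv]
  have e3 : ∀ y, u lA'⁻¹ y = u lA⁻¹ (i lB y) - u lB (i (lB⁻¹ * lA⁻¹ * lB) y) + u lB y := by
    intro y
    have hq : i (lA⁻¹ * lB) y = i lB (i (lB⁻¹ * lA⁻¹ * lB) y) := by
      rw [← Equiv.Perm.mul_apply, ← map_mul]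
      congr 2
      group
    rw [hA'i, hu, hu, hq, cx_inv hu]
    ring
  calc ∑ y, θ lC y = ∑ y, (u lB (i lC y) * v lB (i lC y) +
      (u lA⁻¹ (i (lB * lA) y) - u lB (i lC y)) * v lB (i lA y)) :=
        Finset.sum_congr rfl fun y _ => tC y
    _ = ∑ y, u lB y * v lB y +
      ∑ y, (u lA⁻¹ (i lB y) - u lB (i (lB⁻¹ * lA⁻¹ * lB) y)) * v lB y := by
        rw [Finset.sum_add_distrib, e1, e2]
    _ = ∑ y, v lB y * u lA'⁻¹ y := by
        rw [← Finset.sum_add_distrib]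
        refine Finset.sum_congr rfl fun y _ => ?_
        rw [e3]
        ring

end Pool.Agent.SOR.H47
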