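import Pool.Agent.SOR.Stmts1

/-!
# SOR, row AUT: the automorphisms `pa`, `pb` of the free group
-/

noncomputable section

namespace Pool.Agent.SOR.H47

theorem pa_A : pa lA = lA := fa_A
theorem pa_B : pa lB = lA * lB := fa_B
theorem pb_A : pb lA = lB⁻¹ := fb_A
theorem pb_B : pb lB = lB * lA * lB := fb_B

theorem mulAut_ext {φ ψ : MulAut Fr} (h1 : φ lA = ψ lA) (h2 : φ lB = ψ lB) : φ = ψ := by
  have h : φ.toMonoidHom = ψ.toMonoidHom := hom_ext h1 h2
  ext1 x
  exact DFunLike.congr_fun h x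

theorem p1_A : (pa * pb) lA = lB⁻¹ * lA⁻¹ := by
  rw [MulAut.mul_apply, pb_A, map_inv, pa_B, mul_inv_rev]

theorem p1_B : (pa * pb) lB = lA * lB * lA * lA * lB := by
  rw [MulAut.mul_apply, pb_B, map_mul, map_mul, pa_B, pa_A]
  simp only [mul_assoc]

theorem p3_A (P : MulAut Fr) (hA : P lA = lB⁻¹ * lA⁻¹) (hB : P lB = lA * lB * lA * lA * lB) :
    P (P (P lA)) = lB⁻¹ * lA⁻¹ * lB := by
  simp only [hA, hB, map_mul, map_inv]
  group

theorem p3_B (P : MulAut Fr) (hA : P lA = lB⁻¹ * lA⁻¹) (hB : P lB = lA * lB * lA * lA * lB) :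
    P (P (P lB)) = lB⁻¹ * lA⁻¹ * lB⁻¹ * lA * lB := by
  simp only [hA, hB, map_mul, map_inv]
  group

/-- **AUT**. -/
theorem aut : AutStmt := by
  refine ⟨?_, ?_, ?_, ?_, ?_⟩
  · simp only [lC, map_mul, map_inv, pa_A, pa_B]
    group
  · simp only [lC, map_mul, map_inv, pb_A, pb_B]
    group
  · simp only [lA', map_mul, map_inv, pa_A, pa_B]
    group
  · apply mulAut_ext
    · simp only [MulAut.mul_apply, map_mul, map_inv, pa_A, pa_B, pb_A, pb_B]
      group
    · simp only [MulAut.mul_apply, map_mul, map_inv, pa_A, pa_B, pb_A, pb_B]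
      group
  · have hA := p3_A _ p1_A p1_B
    have hB := p3_B _ p1_A p1_B
    generalize pa * pb = P at hA hB ⊢
    have h6 : ∀ x, (P ^ 6) x = P (P (P (P (P (P x))))) := by
      intro x
      simp only [pow_succ, pow_zero, one_mul, MulAut.mul_apply]
    apply mulAut_ext
    · rw [h6, hA, MulAut.conj_apply]
      simp only [map_mul, map_inv, hA, hB, lC]
      group
    · rw [h6, hB, MulAut.conj_apply]
      simp only [map_mul, map_inv, hA, hB, lC]
      group

end Pool.Agent.SOR.H47
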